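import Pool.Agent.W889.SR.Stm

set_option autoImplicit false

namespace Pool.Agent.W199.SR

open Set Ordinal Pool.Agent.W889.SR

theorem qf_inv {n : ℕ} {A B : Type} {r : A → A → Prop} {a : Fin n → A} {s : B → B → Prop}
    {b : Fin n → B} (h : SameQf r a s b) (ψ : QF n) : ψ.Realize r a ↔ ψ.Realize s b := by
  induction ψ with
  | tru => exact Iff.rfl
  | le i j => exact h.1 i j
  | eq i j => exact h.2 i j
  | neg φ ih => exact not_congr ih
  | and φ ψ ih1 ih2 => exact and_congr ih1 ih2

theorem elim_comp_symm {n k : ℕ} {A : Type} (a : Fin n → A) (c : Fin k → A) :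
    (Sum.elim a c) ∘ (finSumFinEquiv : Fin n ⊕ Fin k ≃ Fin (n + k)).symm = Fin.append a c := by
  funext i
  refine Fin.addCases (fun i => ?_) (fun i => ?_) i
  · simp
  · simp

theorem append_comp {n k : ℕ} {A : Type} (a : Fin n → A) (c : Fin k → A) :
    Fin.append a c ∘ (finSumFinEquiv : Fin n ⊕ Fin k ≃ Fin (n + k)) = Sum.elim a c := by
  rw [← elim_comp_symm]
  funext i
  simp

theorem bf_append {β : Ordinal.{0}} {n k : ℕ} {A B : Type} {r : A → A → Prop} {U : Set A}
    {a : Fin n → A} {s : B → B → Prop} {V : Set B} {b : Fin n → B} {c : Fin k → A} {d : Fin k → B} :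
    BF β s V (Sum.elim b d) r U (Sum.elim a c) ↔
      BF β s V (Fin.append b d) r U (Fin.append a c) := by
  constructor
  · intro h
    have := h.reindex (finSumFinEquiv : Fin n ⊕ Fin k ≃ Fin (n + k)).symm
    rwa [elim_comp_symm, elim_comp_symm] at this
  · intro h
    have := h.reindex (finSumFinEquiv : Fin n ⊕ Fin k ≃ Fin (n + k))
    rwa [append_comp, append_comp] at this

theorem k1 : K1 := by
  intro β
  induction β using Ordinal.induction with
  | h β ih =>
    intro n φ A B r a s b h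
    have h' := h
    rw [BF_iff] at h'
    constructor
    · intro hφ hr
      cases φ with
      | qf ψ => exact (qf_inv h'.1 ψ).1 hr
      | disj k ψ => exact absurd hφ (by simp [Fml.IsPi, Fml.Lv])
      | conj k ψ =>
        intro i w
        simp only [Fml.IsPi, Fml.Lv] at hφ
        obtain ⟨γ, hγ, hl⟩ := hφ i
        obtain ⟨c, -, hc⟩ := h'.2 γ hγ (k i) w (fun _ => mem_univ _)
        rw [bf_append] at hc
        exact (ih γ hγ _ (ψ i) B A s _ r _ hc).2 hl (hr i c)
    · intro hφ hr
      cases φ with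
      | qf ψ => exact (qf_inv h'.1 ψ).2 hr
      | conj k ψ => exact absurd hφ (by simp [Fml.IsSigma, Fml.Lv])
      | disj k ψ =>
        obtain ⟨i, w, hw⟩ := hr
        simp only [Fml.IsSigma, Fml.Lv] at hφ
        obtain ⟨γ, hγ, hl⟩ := hφ i
        obtain ⟨c, -, hc⟩ := h'.2 γ hγ (k i) w (fun _ => mem_univ _)
        rw [bf_append] at hc
        exact ⟨i, c, (ih γ hγ _ (ψ i) B A s _ r _ hc).1 hl hw⟩

/-- a countable family of formulas indexed by a countable type, as a sequence -/
theorem seq_of {ι : Type} [Countable ι] {n : ℕ} (b : Bool) (α : Ordinal.{0}) (G : ι → Fml n)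
    (hG : ∀ c, (G c).Lv b α) (d : QF n) :
    ∃ F : ℕ → Fml n, (∀ i, (F i).Lv b α) ∧ (∀ i, (∃ c, F i = G c) ∨ F i = .qf d) ∧
      ∀ c, ∃ i, F i = G c := by
  by_cases he : Nonempty ι
  · obtain ⟨e, he⟩ := exists_surjective_nat ι
    refine ⟨fun i => G (e i), fun i => hG _, fun i => Or.inl ⟨_, rfl⟩, fun c => ?_⟩
    obtain ⟨i, hi⟩ := he c
    exact ⟨i, congrArg G hi⟩
  · refine ⟨fun _ => .qf d, fun i => ?_, fun i => Or.inr rfl, fun c => absurd ⟨c⟩ he⟩
    cases b <;> simp [Fml.Lv]

theorem k2 (fm : FM) : K2 := by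
  intro β
  induction β using Ordinal.induction with
  | h β ih =>
    intro n A B _ _ r a s b h
    rw [BF_iff, not_and] at h
    by_cases hq : SameQf r a s b
    · have h2 := h hq
      push Not at h2
      obtain ⟨γ, hγ, k, d, -, hc⟩ := h2
      have hβ : 1 ≤ β := Order.one_le_iff_pos.2 (lt_of_le_of_lt (zero_le) hγ)
      rcases eq_or_ne γ 0 with h0 | h0
      · obtain ⟨θ, hθ⟩ := fm.qf (n + k) (fun i j => s (Fin.append b d i) (Fin.append b d j))
          (fun i j => Fin.append b d i = Fin.append b d j)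
        obtain ⟨φ', hl, hr⟩ := fm.neg (n + k) (.qf θ)
        have hl1 : φ'.Lv false β := by
          have := hl true β (by simp [Fml.Lv])
          simpa using this
        obtain ⟨φ'', hl2, hr2⟩ := fm.all β hβ n k φ' hl1
        refine ⟨φ'', hl2, ?_, ?_⟩
        · rw [hr2]
          intro c
          rw [hr]
          intro hcon
          refine hc c (fun _ => mem_univ _) ?_
          rw [bf_append, BF_iff]
          have h3 := (hθ A r (Fin.append a c)).1 hcon
          refine ⟨⟨fun i j => (h3.1 i j).symm, fun i j => (h3.2 i j).symm⟩, fun γ' hγ' => ?_⟩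
          rw [h0] at hγ'
          exact absurd hγ' not_lt_zero
        · rw [hr2]
          intro hcon
          have := hcon d
          rw [hr] at this
          exact this ((hθ B s (Fin.append b d)).2 ⟨fun _ _ => Iff.rfl, fun _ _ => Iff.rfl⟩)
      · have hγ1 : 1 ≤ γ := Order.one_le_iff_ne_zero.2 h0
        have hex : ∀ c : Fin k → A, ∃ π : Fml (n + k), π.IsPi γ ∧
            π.Realize s (Fin.append b d) ∧ ¬ π.Realize r (Fin.append a c) := by
          intro c
          refine ih γ hγ (n + k) B A s _ r _ ?_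
          rw [← bf_append]
          exact hc c (fun _ => mem_univ _)
        choose π hπ1 hπ2 hπ3 using hex
        have hneg := fun c => fm.neg (n + k) (π c)
        choose π' hπ'1 hπ'2 using hneg
        obtain ⟨F, hF1, hF2, hF3⟩ := seq_of true γ π' (fun c => by
          have := hπ'1 c false γ (hπ1 c); simpa using this) (.neg .tru)
        obtain ⟨Φ, hΦ1, hΦ2⟩ := fm.disj γ hγ1 (n + k) F hF1
        obtain ⟨Φ', hΦ'1, hΦ'2⟩ := fm.lift (n + k) Φ true
        have hl1 : Φ'.Lv false β := by simpa using hΦ'1 γ β hγ hΦ1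
        obtain ⟨φ'', hl2, hr2⟩ := fm.all β hβ n k Φ' hl1
        refine ⟨φ'', hl2, ?_, ?_⟩
        · rw [hr2]
          intro c
          rw [hΦ'2, hΦ2]
          obtain ⟨i, hi⟩ := hF3 c
          refine ⟨i, ?_⟩
          rw [hi, hπ'2]
          exact hπ3 c
        · rw [hr2]
          intro hcon
          have h4 := hcon d
          rw [hΦ'2, hΦ2] at h4
          obtain ⟨i, hi⟩ := h4
          rcases hF2 i with ⟨c, hc2⟩ | hc2
          · rw [hc2, hπ'2] at hi
            exact hi (hπ2 c)
          · rw [hc2] at hi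
            exact hi trivial
    · obtain ⟨θ, hθ⟩ := fm.qf n (fun i j => r (a i) (a j)) (fun i j => a i = a j)
      refine ⟨.qf θ, by simp [Fml.IsPi, Fml.Lv], ?_, ?_⟩
      · exact (hθ A r a).2 ⟨fun _ _ => Iff.rfl, fun _ _ => Iff.rfl⟩
      · intro hcon
        have h3 := (hθ B s b).1 hcon
        exact hq ⟨fun i j => (h3.1 i j).symm, fun i j => (h3.2 i j).symm⟩

theorem rd (fm : FM) : RD := by
  intro T _ α r p s
  have hex : ∀ f : {f : Fin p.n → ℕ // ¬ Rl r p s f}, ∃ φ : Fml p.n, φ.IsPi p.β ∧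
      φ.Realize r p.e ∧ ¬ φ.Realize s f.1 := by
    intro f
    exact k2 fm p.β p.n T ℕ r p.e s f.1 f.2
  choose G hG1 hG2 hG3 using hex
  obtain ⟨F, hF1, hF2, hF3⟩ := seq_of false p.β G hG1 .tru
  obtain ⟨Φ, hΦ1, hΦ2⟩ := fm.conj p.β p.one_le p.n F hF1
  refine ⟨Φ, hΦ1, fun v => ?_⟩
  rw [hΦ2]
  constructor
  · intro h
    by_contra hcon
    obtain ⟨i, hi⟩ := hF3 ⟨v, hcon⟩
    have := h i
    rw [hi] at this
    exact hG3 ⟨v, hcon⟩ this
  · intro h i
    refine (k1 p.β p.n (F i) T ℕ r p.e s v h).1 (hF1 i) ?_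
    rcases hF2 i with ⟨c, hc⟩ | hc
    · rw [hc]; exact hG2 c
    · rw [hc]; exact trivial

theorem k12 : K12_stmt := fun fm => ⟨k1, k2 fm, rd fm⟩

end Pool.Agent.W199.SR
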